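import Pool.Agent.MP_d5a4a4_al.Mg.H32_Natural

namespace Pool.Agent.Results.MP_d5a4a4_al.NaturalIso

open Pool.Agent.MP_d5a4a4_al.H32

universe u

/-- For every Coxeter system of finite rank and every Coxeter element `w`, the map
`a_i ↦ [s_i]` extends to an isomorphism from the Artin group onto the dual Artin group. -/
theorem result (n : ℕ) (M : CoxeterMatrix (Fin n)) (W : Type u) [Group W] (cs : CoxeterSystem M W)
    (σ : Equiv.Perm (Fin n)) (w : W) (hw : w = (List.ofFn fun k => cs.simple (σ k)).prod) :
    ∃ φ : PresentedGroup (artinRels cs) ≃* PresentedGroup (dualRels cs w),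
      ∀ i, ∃ h : absLe cs (cs.simple i) w,
        φ (PresentedGroup.of i) = PresentedGroup.of ⟨cs.simple i, h⟩ := by
  obtain rfl : w = cs.wordProd (List.ofFn σ) := by
    rw [hw, CoxeterSystem.wordProd, List.map_ofFn]
    rfl
  exact natural cs (List.nodup_ofFn.2 σ.injective) fun i =>
    List.mem_ofFn.2 ⟨σ.symm i, σ.apply_symm_apply i⟩

end Pool.Agent.Results.MP_d5a4a4_al.NaturalIso
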